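import Pool.Agent.helper95.MT.GGcrude

/-!
# Maynard-Tao, module AN2: derivatives of `L(s, χ)` to the right of `1`
-/

namespace Pool.Agent.helper39.MT

open Finset Real ArithmeticFunction

/-- `(log x)^j x^(-s)`. -/
noncomputable def h95_f (j : ℕ) (s : ℂ) (x : ℝ) : ℂ :=
  (Real.log x : ℂ) ^ j * Complex.exp (-s * (Real.log x : ℂ))

lemma h95_term_f {q : ℕ} (χ : DirichletCharacter ℂ q) (j : ℕ) (s : ℂ) {n : ℕ} (hn : n ≠ 0) :
    LSeries.term (fun n : ℕ => χ n * (Real.log n : ℂ) ^ j) s n = χ n * h95_f j s n := by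
  have hn' : (n : ℂ) ≠ 0 := by exact_mod_cast hn
  rw [LSeries.term_of_ne_zero hn, h95_f, Complex.cpow_def_of_ne_zero hn', ← Complex.natCast_log,
    div_eq_mul_inv, ← Complex.exp_neg]
  have : -s * (Real.log n : ℂ) = -((Real.log n : ℂ) * s) := by ring
  rw [this]
  ring

lemma h95_norm_s {s : ℂ} (h1 : 1 < s.re) (h2 : s.re ≤ 2) (h3 : |s.im| ≤ 1) : ‖s‖ ≤ 3 := by
  refine (Complex.norm_le_abs_re_add_abs_im s).trans ?_
  rw [abs_of_pos (by linarith)]
  linarith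

lemma h95_f_deriv (j : ℕ) (s : ℂ) {x : ℝ} (hx : 0 < x) :
    HasDerivAt (h95_f j s)
      (((j : ℂ) * (Real.log x : ℂ) ^ (j - 1) * ((x⁻¹ : ℝ) : ℂ)) *
        Complex.exp (-s * (Real.log x : ℂ)) +
        (Real.log x : ℂ) ^ j * (Complex.exp (-s * (Real.log x : ℂ)) * (-s * ((x⁻¹ : ℝ) : ℂ)))) x := by
  have h1 : HasDerivAt (fun y : ℝ => (Real.log y : ℂ)) ((x⁻¹ : ℝ) : ℂ) x :=
    (Real.hasDerivAt_log hx.ne').ofReal_comp
  exact (h1.pow j).mul ((h1.const_mul (-s)).cexp)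

lemma h95_f_lip (j : ℕ) {s : ℂ} (h1 : 1 < s.re) (h2 : s.re ≤ 2) (h3 : |s.im| ≤ 1) {a x : ℝ}
    (ha : 1 ≤ a) (hx : a ≤ x) :
    ‖h95_f j s x - h95_f j s a‖ ≤ ((j : ℝ) + 3) * (1 + Real.log x) ^ j / a ^ 2 * (x - a) := by
  refine norm_image_sub_le_of_norm_deriv_le_segment' (a := a) (b := x)
    (f := h95_f j s) (fun y hy => (h95_f_deriv j s (by linarith [hy.1])).hasDerivWithinAt) ?_ x
    ⟨hx, le_rfl⟩
  intro y hy
  have hy1 : 1 ≤ y := ha.trans hy.1
  have hy0 : 0 < y := by linarith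
  have hlog0 : 0 ≤ Real.log y := Real.log_nonneg hy1
  have hlog : Real.log y ≤ Real.log x := Real.log_le_log hy0 hy.2.le
  have hexp : ‖Complex.exp (-s * (Real.log y : ℂ))‖ ≤ y⁻¹ := by
    rw [Complex.norm_exp]
    have : (-s * (Real.log y : ℂ)).re = -(s.re * Real.log y) := by simp
    rw [this]
    calc Real.exp (-(s.re * Real.log y)) ≤ Real.exp (-Real.log y) := by
          apply Real.exp_le_exp.2
          nlinarith
      _ = y⁻¹ := by rw [Real.exp_neg, Real.exp_log hy0]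
  have hs := h95_norm_s h1 h2 h3
  have hj1 : Real.log y ^ (j - 1) ≤ (1 + Real.log x) ^ j := by
    calc Real.log y ^ (j - 1) ≤ (1 + Real.log x) ^ (j - 1) := by gcongr; linarith
      _ ≤ (1 + Real.log x) ^ j := pow_le_pow_right₀ (by linarith) (by omega)
  have hj2 : Real.log y ^ j ≤ (1 + Real.log x) ^ j := by gcongr; linarith
  have hyi : ‖((y⁻¹ : ℝ) : ℂ)‖ = y⁻¹ := by
    rw [Complex.norm_real, Real.norm_of_nonneg (by positivity)]
  have hP : (0 : ℝ) ≤ (1 + Real.log x) ^ j := by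
    have : 0 ≤ Real.log x := hlog0.trans hlog
    positivity
  calc _ ≤ ‖((j : ℂ) * (Real.log y : ℂ) ^ (j - 1) * ((y⁻¹ : ℝ) : ℂ)) *
        Complex.exp (-s * (Real.log y : ℂ))‖ +
        ‖(Real.log y : ℂ) ^ j * (Complex.exp (-s * (Real.log y : ℂ)) * (-s * ((y⁻¹ : ℝ) : ℂ)))‖ :=
        norm_add_le _ _
    _ = ((j : ℝ) * Real.log y ^ (j - 1) * y⁻¹) * ‖Complex.exp (-s * (Real.log y : ℂ))‖ +
        Real.log y ^ j * (‖Complex.exp (-s * (Real.log y : ℂ))‖ * (‖s‖ * y⁻¹)) := by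
        rw [norm_mul, norm_mul, norm_mul, norm_mul, norm_mul, norm_mul, norm_pow, norm_pow, hyi,
          Complex.norm_real, Real.norm_of_nonneg hlog0, Complex.norm_natCast, norm_neg]
    _ ≤ ((j : ℝ) * (1 + Real.log x) ^ j * y⁻¹) * y⁻¹ +
        (1 + Real.log x) ^ j * (y⁻¹ * (3 * y⁻¹)) := by gcongr
    _ = ((j : ℝ) + 3) * (1 + Real.log x) ^ j / y ^ 2 := by field_simp
    _ ≤ _ := by
        have : a ^ 2 ≤ y ^ 2 := by
          have := hy.1
          gcongr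
        gcongr

lemma h95_sum_zmod {q : ℕ} [NeZero q] {M : Type*} [AddCommMonoid M] (g : ℕ → M) :
    ∑ r : ZMod q, g r.val = ∑ n ∈ range q, g n := by
  obtain _ | k := q
  · exact absurd rfl (NeZero.ne 0)
  · exact Fin.sum_univ_eq_sum_range g (k + 1)

lemma h95_summable_block (j : ℕ) :
    Summable fun m : ℕ => (1 + Real.log ((m : ℝ) + 1)) ^ j / ((m : ℝ) + 1) ^ 2 := by
  refine Summable.of_nonneg_of_le (f := fun m : ℕ => ((j.factorial : ℝ) * (1 / (1 / 2)) ^ j *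
    Real.exp 1 ^ (1 / 2 : ℝ)) * (1 / ((m : ℝ) + 1) ^ (3 / 2 : ℝ))) ?_ ?_ ?_
  · intro m
    have : 0 ≤ Real.log ((m : ℝ) + 1) := Real.log_nonneg (by linarith [(Nat.cast_nonneg m : (0:ℝ) ≤ m)])
    positivity
  · intro m
    have hm : (1 : ℝ) ≤ (m : ℝ) + 1 := by linarith [(Nat.cast_nonneg m : (0:ℝ) ≤ m)]
    have hm0 : (0 : ℝ) < (m : ℝ) + 1 := by linarith
    have h1 := h95_log_pow_le j (δ := 1 / 2) (x := Real.exp 1 * ((m : ℝ) + 1)) (by norm_num) (by
      have : (1 : ℝ) ≤ Real.exp 1 := Real.one_le_exp (by norm_num)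
      nlinarith)
    rw [Real.log_mul (Real.exp_pos 1).ne' hm0.ne', Real.log_exp,
      Real.mul_rpow (Real.exp_pos 1).le hm0.le] at h1
    have h2 : ((m : ℝ) + 1) ^ (1 / 2 : ℝ) / ((m : ℝ) + 1) ^ 2 = 1 / ((m : ℝ) + 1) ^ (3 / 2 : ℝ) := by
      rw [div_eq_div_iff (by positivity) (by positivity), one_mul, ← Real.rpow_add hm0,
        ← Real.rpow_natCast]
      norm_num
    calc (1 + Real.log ((m : ℝ) + 1)) ^ j / ((m : ℝ) + 1) ^ 2
        ≤ ((j.factorial : ℝ) * (1 / (1 / 2)) ^ j * (Real.exp 1 ^ (1 / 2 : ℝ) *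
          ((m : ℝ) + 1) ^ (1 / 2 : ℝ))) / ((m : ℝ) + 1) ^ 2 := by gcongr
      _ = ((j.factorial : ℝ) * (1 / (1 / 2)) ^ j * Real.exp 1 ^ (1 / 2 : ℝ)) *
          (((m : ℝ) + 1) ^ (1 / 2 : ℝ) / ((m : ℝ) + 1) ^ 2) := by ring
      _ = _ := by rw [h2]
  · exact (h95_summable_rpow (by norm_num)).mul_left _

/-- A block of `q` consecutive terms. -/
lemma h95_block {q : ℕ} [NeZero q] {χ : DirichletCharacter ℂ q} (hχ : χ ≠ 1) (j : ℕ)
    {s : ℂ} (h1 : 1 < s.re) (h2 : s.re ≤ 2) (h3 : |s.im| ≤ 1) (m : ℕ) :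
    ‖∑ r : ZMod q, LSeries.term (fun n : ℕ => χ n * (Real.log n : ℂ) ^ j) s (r.val + q * (m + 1))‖
      ≤ (((j : ℝ) + 3) * 2 ^ j * (1 + Real.log q) ^ j) *
        ((1 + Real.log ((m : ℝ) + 1)) ^ j / ((m : ℝ) + 1) ^ 2) := by
  have hq0 : 0 < q := Nat.pos_of_ne_zero (NeZero.ne q)
  have hq : (1 : ℝ) ≤ q := by exact_mod_cast hq0
  have hm : (1 : ℝ) ≤ (m : ℝ) + 1 := by linarith [(Nat.cast_nonneg m : (0:ℝ) ≤ m)]
  have hlq : 0 ≤ Real.log q := Real.log_nonneg hq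
  have hlm : 0 ≤ Real.log ((m : ℝ) + 1) := Real.log_nonneg hm
  set y : ℝ := (q : ℝ) * ((m : ℝ) + 1) with hy
  have hy1 : 1 ≤ y := by nlinarith
  have hsum0 : ∑ r : ZMod q, χ r = 0 := MulChar.sum_eq_zero_of_ne_one hχ
  have hterm : ∀ r : ZMod q, LSeries.term (fun n : ℕ => χ n * (Real.log n : ℂ) ^ j) s
      (r.val + q * (m + 1)) = χ r * h95_f j s (r.val + y) := by
    intro r
    have hne : r.val + q * (m + 1) ≠ 0 := by
      have : 0 < q * (m + 1) := by positivity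
      omega
    rw [h95_term_f χ j s hne]
    congr 1
    · simp
    · rw [hy]; push_cast; rfl
  simp_rw [hterm]
  have hsub : ∑ r : ZMod q, χ r * h95_f j s (r.val + y) =
      ∑ r : ZMod q, χ r * (h95_f j s (r.val + y) - h95_f j s y) := by
    simp_rw [mul_sub]
    rw [Finset.sum_sub_distrib, ← Finset.sum_mul, hsum0, zero_mul, sub_zero]
  rw [hsub]
  have hbd : ∀ r : ZMod q, ‖χ r * (h95_f j s (r.val + y) - h95_f j s y)‖ ≤
      (((j : ℝ) + 3) * (2 * ((1 + Real.log q) * (1 + Real.log ((m : ℝ) + 1)))) ^ j) / y ^ 2 * q := by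
    intro r
    have hr0 : (0 : ℝ) ≤ r.val := Nat.cast_nonneg _
    have hrq : (r.val : ℝ) ≤ q := by exact_mod_cast (ZMod.val_lt r).le
    have hlip := h95_f_lip j h1 h2 h3 hy1 (x := r.val + y) (by linarith)
    have hlog : 1 + Real.log (r.val + y) ≤
        2 * ((1 + Real.log q) * (1 + Real.log ((m : ℝ) + 1))) := by
      have hle : (r.val : ℝ) + y ≤ 2 * y := by
        have : (q : ℝ) ≤ y := by nlinarith
        linarith
      have h5 : Real.log (r.val + y) ≤ Real.log (2 * y) := Real.log_le_log (by linarith) hle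
      have h6 : Real.log (2 * y) = Real.log 2 + (Real.log q + Real.log ((m : ℝ) + 1)) := by
        rw [Real.log_mul (by norm_num) (by linarith), hy,
          Real.log_mul (by linarith) (by linarith)]
      have h7 : Real.log 2 ≤ 1 := by
        have := Real.log_two_lt_d9
        linarith
      nlinarith [mul_nonneg hlq hlm]
    have hlog0 : 0 ≤ 1 + Real.log (r.val + y) := by
      have : 0 ≤ Real.log (r.val + y) := Real.log_nonneg (by linarith)
      linarith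
    rw [norm_mul]
    calc ‖χ r‖ * ‖h95_f j s (r.val + y) - h95_f j s y‖
        ≤ 1 * (((j : ℝ) + 3) * (1 + Real.log (r.val + y)) ^ j / y ^ 2 * (r.val + y - y)) := by
          gcongr
          exact χ.norm_le_one r
      _ ≤ 1 * ((((j : ℝ) + 3) * (2 * ((1 + Real.log q) * (1 + Real.log ((m : ℝ) + 1)))) ^ j)
            / y ^ 2 * q) := by
          have : (r.val : ℝ) + y - y ≤ q := by linarith
          have h8 : (0 : ℝ) ≤ (r.val : ℝ) + y - y := by linarith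
          gcongr
      _ = _ := one_mul _
  refine (norm_sum_le _ _).trans ((Finset.sum_le_sum fun r _ => hbd r).trans ?_)
  rw [Finset.sum_const, Finset.card_univ, ZMod.card, nsmul_eq_mul, hy]
  refine le_of_eq ?_
  rw [mul_pow, mul_pow, mul_pow]
  field_simp

/-- The first `q` terms. -/
lemma h95_first {q : ℕ} [NeZero q] (χ : DirichletCharacter ℂ q) (j : ℕ)
    {s : ℂ} (h1 : 1 < s.re) :
    ‖∑ r : ZMod q, LSeries.term (fun n : ℕ => χ n * (Real.log n : ℂ) ^ j) s r.val‖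
      ≤ (1 + Real.log q) ^ (j + 1) := by
  have hq0 : 0 < q := Nat.pos_of_ne_zero (NeZero.ne q)
  have hq : (1 : ℝ) ≤ q := by exact_mod_cast hq0
  have hlq : 0 ≤ Real.log q := Real.log_nonneg hq
  refine (norm_sum_le _ _).trans ?_
  rw [h95_sum_zmod (fun n => ‖LSeries.term (fun n : ℕ => χ n * (Real.log n : ℂ) ^ j) s n‖)]
  have hbd : ∀ n ∈ range q, ‖LSeries.term (fun n : ℕ => χ n * (Real.log n : ℂ) ^ j) s n‖ ≤
      (1 + Real.log q) ^ j * ((n : ℝ)⁻¹) := by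
    intro n hn
    rw [Finset.mem_range] at hn
    by_cases hn0 : n = 0
    · subst hn0; simp
    · have hn1 : (1 : ℝ) ≤ n := by exact_mod_cast Nat.one_le_iff_ne_zero.2 hn0
      rw [LSeries.norm_term_eq, if_neg hn0, div_eq_mul_inv]
      have h2 : ‖χ n * (Real.log n : ℂ) ^ j‖ ≤ (1 + Real.log q) ^ j := by
        refine (h95_coeff_DD χ j n).trans ?_
        have : Real.log n ≤ Real.log q := Real.log_le_log (by linarith) (by exact_mod_cast hn.le)
        have h0 : 0 ≤ Real.log (n : ℝ) := Real.log_nonneg hn1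
        gcongr
        linarith
      have h3 : (n : ℝ) ≤ (n : ℝ) ^ s.re := by
        calc (n : ℝ) = (n : ℝ) ^ (1 : ℝ) := (Real.rpow_one _).symm
          _ ≤ _ := Real.rpow_le_rpow_of_exponent_le hn1 h1.le
      gcongr
  refine (Finset.sum_le_sum hbd).trans ?_
  rw [← Finset.mul_sum]
  have hharm : ∑ n ∈ range q, ((n : ℝ)⁻¹) ≤ 1 + Real.log q := by
    obtain ⟨k, rfl⟩ : ∃ k, q = k + 1 := ⟨q - 1, by omega⟩
    rw [Finset.sum_range_succ']
    have h4 := harmonic_le_one_add_log k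
    have h5 : ((harmonic k : ℚ) : ℝ) = ∑ n ∈ range k, (((n + 1 : ℕ) : ℝ)⁻¹) := by
      rw [harmonic]; push_cast; rfl
    rw [h5] at h4
    have h6 : Real.log (k : ℝ) ≤ Real.log ((k + 1 : ℕ) : ℝ) := by
      by_cases hk : k = 0
      · subst hk; simp
      · exact Real.log_le_log (by exact_mod_cast Nat.pos_of_ne_zero hk) (by push_cast; linarith)
    simp only [Nat.cast_zero, inv_zero, add_zero]
    linarith
  calc (1 + Real.log q) ^ j * ∑ n ∈ range q, ((n : ℝ)⁻¹) ≤ (1 + Real.log q) ^ j * (1 + Real.log q) := by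
        gcongr
    _ = _ := by rw [pow_succ]

/-- AN2: derivatives of `L(s, χ)` to the right of `1`. -/
theorem DD_bound (j : ℕ) : ∃ C : ℝ, 0 < C ∧ ∀ q : ℕ, 2 ≤ q → ∀ χ : DirichletCharacter ℂ q, χ ≠ 1 →
    ∀ s : ℂ, 1 < s.re → s.re ≤ 2 → |s.im| ≤ 1 → ‖DD χ j s‖ ≤ C * (1 + Real.log q) ^ (j + 1) := by
  set S : ℝ := ∑' m : ℕ, (1 + Real.log ((m : ℝ) + 1)) ^ j / ((m : ℝ) + 1) ^ 2 with hS
  have hS0 : 0 ≤ S := tsum_nonneg fun m => by
    have : 0 ≤ Real.log ((m : ℝ) + 1) := Real.log_nonneg (by linarith [(Nat.cast_nonneg m : (0:ℝ) ≤ m)])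
    positivity
  refine ⟨1 + ((j : ℝ) + 3) * 2 ^ j * S, by positivity, ?_⟩
  intro q hq2 χ hχ s h1 h2 h3
  have : NeZero q := ⟨by omega⟩
  have hq : (1 : ℝ) ≤ q := by exact_mod_cast (by omega : 1 ≤ q)
  have hlq : 0 ≤ Real.log q := Real.log_nonneg hq
  have hsum : Summable (LSeries.term (fun n : ℕ => χ n * (Real.log n : ℂ) ^ j) s) :=
    h95_summable_DD χ j h1
  have hcomp : ∀ r : ZMod q, Summable fun m : ℕ =>
      LSeries.term (fun n : ℕ => χ n * (Real.log n : ℂ) ^ j) s (r.val + q * m) := by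
    intro r
    refine hsum.comp_injective (i := fun m : ℕ => r.val + q * m) ?_
    intro a b hab
    have : q * a = q * b := by simpa using hab
    exact Nat.eq_of_mul_eq_mul_left (by omega) this
  have heq : DD χ j s = ∑ r : ZMod q, LSeries.term (fun n : ℕ => χ n * (Real.log n : ℂ) ^ j) s r.val
      + ∑' m : ℕ, ∑ r : ZMod q, LSeries.term (fun n : ℕ => χ n * (Real.log n : ℂ) ^ j) s
        (r.val + q * (m + 1)) := by
    unfold DD LSeries
    rw [Nat.sumByResidueClasses hsum q, Summable.tsum_finsetSum, ← Finset.sum_add_distrib]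
    · refine Finset.sum_congr rfl fun r _ => ?_
      rw [(hcomp r).tsum_eq_zero_add]
      simp
    · intro r _
      exact (summable_nat_add_iff (f := fun m : ℕ =>
        LSeries.term (fun n : ℕ => χ n * (Real.log n : ℂ) ^ j) s (r.val + q * m)) 1).2 (hcomp r)
  rw [heq]
  have hblocks : ‖∑' m : ℕ, ∑ r : ZMod q, LSeries.term (fun n : ℕ => χ n * (Real.log n : ℂ) ^ j) s
        (r.val + q * (m + 1))‖ ≤ (((j : ℝ) + 3) * 2 ^ j * (1 + Real.log q) ^ j) * S := by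
    rw [hS, ← tsum_mul_left]
    exact tsum_of_norm_bounded ((h95_summable_block j).mul_left _).hasSum
      (fun m => h95_block hχ j h1 h2 h3 m)
  refine (norm_add_le _ _).trans ((add_le_add (h95_first χ j h1) hblocks).trans ?_)
  have h4 : (1 + Real.log q) ^ j ≤ (1 + Real.log q) ^ (j + 1) :=
    pow_le_pow_right₀ (by linarith) (by omega)
  calc (1 + Real.log q) ^ (j + 1) + (((j : ℝ) + 3) * 2 ^ j * (1 + Real.log q) ^ j) * S
      ≤ (1 + Real.log q) ^ (j + 1) + (((j : ℝ) + 3) * 2 ^ j * (1 + Real.log q) ^ (j + 1)) * S := by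
        gcongr
    _ = _ := by ring

/-- AN2': `L(s, χ)` is Lipschitz. -/
theorem DD_lipschitz : ∃ C : ℝ, 0 < C ∧ ∀ q : ℕ, 2 ≤ q → ∀ χ : DirichletCharacter ℂ q, χ ≠ 1 →
    ∀ s t : ℂ, 1 < s.re → s.re ≤ 2 → |s.im| ≤ 1 → 1 < t.re → t.re ≤ 2 → |t.im| ≤ 1 →
    ‖DD χ 0 s - DD χ 0 t‖ ≤ C * (1 + Real.log q) ^ 2 * ‖s - t‖ := by
  obtain ⟨C, hC, h⟩ := DD_bound 1
  refine ⟨C, hC, ?_⟩
  intro q hq χ hχ s t hs1 hs2 hs3 ht1 ht2 ht3
  set D : Set ℂ := {z : ℂ | 1 < z.re ∧ z.re ≤ 2 ∧ |z.im| ≤ 1} with hD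
  have hconv : Convex ℝ D := by
    have e : D = ({z : ℂ | 1 < z.re} ∩ {z : ℂ | z.re ≤ 2}) ∩
        ({z : ℂ | -1 ≤ z.im} ∩ {z : ℂ | z.im ≤ 1}) := by
      ext z
      simp only [hD, Set.mem_ofPred_eq, Set.mem_inter_iff, abs_le]
      tauto
    rw [e]
    exact ((convex_halfSpace_re_gt 1).inter (convex_halfSpace_re_le 2)).inter
      ((convex_halfSpace_im_ge (-1)).inter (convex_halfSpace_im_le 1))
  have hder : ∀ z ∈ D, HasDerivWithinAt (DD χ 0) (-DD χ 1 z) D z := by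
    intro z hz
    have h1 : LSeries.abscissaOfAbsConv (fun n : ℕ => χ n * (Real.log n : ℂ) ^ 0) < z.re := by
      refine lt_of_le_of_lt (LSeries.abscissaOfAbsConv_le_of_le_const ⟨1, fun n _ => ?_⟩) ?_
      · have := h95_coeff_DD χ 0 n
        simpa using this
      · exact_mod_cast hz.1
    have h2 := LSeries_hasDerivAt h1
    have h3 : LSeries (LSeries.logMul fun n : ℕ => χ n * (Real.log n : ℂ) ^ 0) z = DD χ 1 z := by
      unfold DD
      congr 1
      funext n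
      simp only [LSeries.logMul, pow_zero, mul_one, pow_one, ← Complex.natCast_log]
      ring
    rw [h3] at h2
    exact h2.hasDerivWithinAt
  have hbd : ∀ z ∈ D, ‖-DD χ 1 z‖ ≤ C * (1 + Real.log q) ^ 2 := by
    intro z hz
    rw [norm_neg]
    exact h q hq χ hχ z hz.1 hz.2.1 hz.2.2
  exact hconv.norm_image_sub_le_of_norm_hasDerivWithin_le hder hbd ⟨ht1, ht2, ht3⟩ ⟨hs1, hs2, hs3⟩

end Pool.Agent.helper39.MT
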