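import Pool.Agent.helper39.MT.Defs

/-!
# Maynard-Tao: crude bounds for the Dirichlet series of `Λ χ log^j` to the right of `1`
-/

namespace Pool.Agent.helper39.MT

open Finset Real ArithmeticFunction

/-- `∑ 1/(n+1)^s ≤ 1/(s-1) + 1`. -/
lemma h95_tsum_rpow_le {s : ℝ} (hs : 1 < s) :
    ∑' n : ℕ, 1 / ((n : ℝ) + 1) ^ s ≤ 1 / (s - 1) + 1 := by
  have h := ZetaAsymptotics.zeta_limit_aux1 hs
  have h0 : 0 ≤ ZetaAsymptotics.termTSum s := tsum_nonneg fun n => ZetaAsymptotics.term_nonneg _ _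
  have h1 : 0 ≤ s * ZetaAsymptotics.termTSum s := mul_nonneg (by linarith) h0
  linarith

lemma h95_summable_rpow {s : ℝ} (hs : 1 < s) : Summable fun n : ℕ => 1 / ((n : ℝ) + 1) ^ s := by
  have := (summable_nat_add_iff (f := fun n : ℕ => 1 / (n : ℝ) ^ s) 1).2
    (Real.summable_one_div_nat_rpow.2 hs)
  simpa using this

/-- `(log x)^m ≤ m! δ^{-m} x^δ`. -/
lemma h95_log_pow_le (m : ℕ) {δ x : ℝ} (hδ : 0 < δ) (hx : 1 ≤ x) :
    Real.log x ^ m ≤ (m.factorial : ℝ) * (1 / δ) ^ m * x ^ δ := by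
  have h0 : 0 ≤ Real.log x := Real.log_nonneg hx
  have h1 := Real.pow_div_factorial_le_exp (δ * Real.log x) (by positivity) m
  have h2 : Real.exp (δ * Real.log x) = x ^ δ := by
    rw [Real.rpow_def_of_pos (by linarith), mul_comm]
  rw [h2, mul_pow, div_le_iff₀ (by positivity)] at h1
  have h3 : (0 : ℝ) < δ ^ m := by positivity
  calc Real.log x ^ m = (δ ^ m * Real.log x ^ m) / δ ^ m := by field_simp
    _ ≤ (x ^ δ * (m.factorial : ℝ)) / δ ^ m := by gcongr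
    _ = _ := by rw [one_div, inv_pow]; field_simp

/-- Norm of the `n`th term of the Dirichlet series of `a(n)` with `|a(n)| ≤ (log n)^m`. -/
lemma h95_term_le {a : ℕ → ℂ} (m : ℕ) (ha : ∀ n : ℕ, ‖a n‖ ≤ Real.log n ^ m) {s : ℂ} {δ : ℝ}
    (hδ : 0 < δ) (hs : s.re = 1 + δ) (n : ℕ) :
    ‖LSeries.term a s (n + 1)‖ ≤
      ((m.factorial : ℝ) * (2 / δ) ^ m) * (1 / ((n : ℝ) + 1) ^ (1 + δ / 2)) := by
  rw [LSeries.norm_term_eq, if_neg (Nat.succ_ne_zero n), hs]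
  have hn : (1 : ℝ) ≤ ((n + 1 : ℕ) : ℝ) := by push_cast; linarith [(Nat.cast_nonneg n : (0 : ℝ) ≤ n)]
  have hn0 : (0 : ℝ) < ((n + 1 : ℕ) : ℝ) := by linarith
  have h1 := h95_log_pow_le m (half_pos hδ) hn
  have h2 : (1 : ℝ) / (δ / 2) = 2 / δ := by field_simp
  rw [h2] at h1
  have h3 : ((n + 1 : ℕ) : ℝ) ^ (1 + δ) = ((n + 1 : ℕ) : ℝ) ^ (δ / 2) * ((n + 1 : ℕ) : ℝ) ^ (1 + δ / 2) := by
    rw [← Real.rpow_add hn0]; congr 1; ring
  rw [h3]
  have h4 : (0 : ℝ) < ((n + 1 : ℕ) : ℝ) ^ (δ / 2) := Real.rpow_pos_of_pos hn0 _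
  have h5 : (0 : ℝ) < ((n + 1 : ℕ) : ℝ) ^ (1 + δ / 2) := Real.rpow_pos_of_pos hn0 _
  rw [div_le_iff₀ (by positivity)]
  have h6 : ((n : ℝ) + 1) = ((n + 1 : ℕ) : ℝ) := by push_cast; ring
  rw [h6]
  calc ‖a (n + 1)‖ ≤ Real.log ((n + 1 : ℕ) : ℝ) ^ m := ha (n + 1)
    _ ≤ _ := h1
    _ = _ := by field_simp

lemma h95_summable {a : ℕ → ℂ} (m : ℕ) (ha : ∀ n : ℕ, ‖a n‖ ≤ Real.log n ^ m) {s : ℂ}
    (hs : 1 < s.re) : LSeriesSummable a s := by
  unfold LSeriesSummable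
  rw [← summable_nat_add_iff 1]
  have hδ : 0 < s.re - 1 := by linarith
  refine Summable.of_norm_bounded (g := fun n : ℕ =>
    ((m.factorial : ℝ) * (2 / (s.re - 1)) ^ m) * (1 / ((n : ℝ) + 1) ^ (1 + (s.re - 1) / 2))) ?_ ?_
  · exact (h95_summable_rpow (by linarith)).mul_left _
  · intro n
    exact h95_term_le m ha hδ (by ring) n

lemma h95_LSeries_le {a : ℕ → ℂ} (m : ℕ) (ha : ∀ n : ℕ, ‖a n‖ ≤ Real.log n ^ m) {s : ℂ} {δ : ℝ}
    (hδ : 0 < δ) (hs : s.re = 1 + δ) :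
    ∑' n : ℕ, ‖LSeries.term a s n‖ ≤ ((m.factorial : ℝ) * (2 / δ) ^ m) * (2 / δ + 1) := by
  have hsum : Summable fun n => ‖LSeries.term a s n‖ :=
    (h95_summable m ha (by rw [hs]; linarith)).norm
  rw [hsum.tsum_eq_zero_add]
  simp only [LSeries.term_zero, norm_zero, zero_add]
  have h1 : (1 : ℝ) < 1 + δ / 2 := by linarith
  calc ∑' n : ℕ, ‖LSeries.term a s (n + 1)‖
      ≤ ∑' n : ℕ, ((m.factorial : ℝ) * (2 / δ) ^ m) * (1 / ((n : ℝ) + 1) ^ (1 + δ / 2)) := by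
        refine Summable.tsum_le_tsum (fun n => h95_term_le m ha hδ hs n) ?_ ?_
        · exact (summable_nat_add_iff (f := fun n => ‖LSeries.term a s n‖) 1).2 hsum
        · exact (h95_summable_rpow h1).mul_left _
    _ = ((m.factorial : ℝ) * (2 / δ) ^ m) * ∑' n : ℕ, (1 / ((n : ℝ) + 1) ^ (1 + δ / 2)) :=
        tsum_mul_left
    _ ≤ _ := by
        refine mul_le_mul_of_nonneg_left ?_ (by positivity)
        refine (h95_tsum_rpow_le h1).trans (le_of_eq ?_)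
        have : 1 + δ / 2 - 1 = δ / 2 := by ring
        rw [this]; field_simp

lemma h95_norm_chi_le {q : ℕ} (χ : DirichletCharacter ℂ q) (n : ℕ) : ‖χ (n : ZMod q)‖ ≤ 1 :=
  χ.norm_le_one _

lemma h95_coeff_GG {q : ℕ} (χ : DirichletCharacter ℂ q) (j n : ℕ) :
    ‖(vonMangoldt n : ℂ) * χ n * (Real.log n : ℂ) ^ j‖ ≤ Real.log n ^ (j + 1) := by
  have h0 : 0 ≤ Real.log (n : ℝ) := Real.log_natCast_nonneg n
  rw [norm_mul, norm_mul, norm_pow, Complex.norm_real, Complex.norm_real, Real.norm_of_nonneg h0,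
    Real.norm_of_nonneg vonMangoldt_nonneg, pow_succ']
  have h1 : vonMangoldt n * ‖χ (n : ZMod q)‖ ≤ Real.log n := by
    calc vonMangoldt n * ‖χ (n : ZMod q)‖ ≤ Real.log n * 1 := by
          gcongr
          · exact vonMangoldt_le_log
          · exact h95_norm_chi_le χ n
      _ = _ := mul_one _
  gcongr

lemma h95_coeff_DD {q : ℕ} (χ : DirichletCharacter ℂ q) (j n : ℕ) :
    ‖χ n * (Real.log n : ℂ) ^ j‖ ≤ Real.log n ^ j := by
  have h0 : 0 ≤ Real.log (n : ℝ) := Real.log_natCast_nonneg n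
  rw [norm_mul, norm_pow, Complex.norm_real, Real.norm_of_nonneg h0]
  calc ‖χ (n : ZMod q)‖ * Real.log n ^ j ≤ 1 * Real.log n ^ j := by
        gcongr
        exact h95_norm_chi_le χ n
    _ = _ := one_mul _

lemma h95_summable_GG {q : ℕ} (χ : DirichletCharacter ℂ q) (j : ℕ) {s : ℂ} (hs : 1 < s.re) :
    LSeriesSummable (fun n : ℕ => (vonMangoldt n : ℂ) * χ n * (Real.log n : ℂ) ^ j) s :=
  h95_summable (j + 1) (h95_coeff_GG χ j) hs

lemma h95_summable_DD {q : ℕ} (χ : DirichletCharacter ℂ q) (j : ℕ) {s : ℂ} (hs : 1 < s.re) :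
    LSeriesSummable (fun n : ℕ => χ n * (Real.log n : ℂ) ^ j) s :=
  h95_summable j (h95_coeff_DD χ j) hs

/-- Crude bound for `GG`. -/
lemma h95_GG_crude {q : ℕ} (χ : DirichletCharacter ℂ q) (j : ℕ) {s : ℂ} {L : ℝ} (hL : 1 ≤ L)
    (hs : s.re = 1 + 1 / L) :
    ‖GG χ j s‖ ≤ (((j + 1).factorial : ℝ) * 2 ^ (j + 1) * 3) * L ^ (j + 2) := by
  have hδ : 0 < 1 / L := by positivity
  have h1 := h95_LSeries_le (j + 1) (h95_coeff_GG χ j) hδ hs
  have h2 : (2 : ℝ) / (1 / L) = 2 * L := by field_simp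
  rw [h2] at h1
  refine le_trans ?_ (h1.trans ?_)
  · unfold GG LSeries
    exact norm_tsum_le_tsum_norm (h95_summable_GG χ j (by rw [hs]; linarith)).norm
  · calc ((j + 1).factorial : ℝ) * (2 * L) ^ (j + 1) * (2 * L + 1)
        ≤ ((j + 1).factorial : ℝ) * (2 * L) ^ (j + 1) * (3 * L) := by
          gcongr; linarith
      _ = _ := by ring

end Pool.Agent.helper39.MT
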