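import Pool.Agent.helper95.MT.GGcrude

/-!
# Maynard-Tao, module AN7: Fourier representation of `TT`
-/

namespace Pool.Agent.helper39.MT

open Finset Real ArithmeticFunction MeasureTheory FourierTransform

/-- `e^u V(u) / u^K`. -/
noncomputable def h95_g (K : ℕ) (u : ℝ) : ℂ := ((Real.exp u * V u / u ^ K : ℝ) : ℂ)

lemma h95_g_contDiff (K : ℕ) : ContDiff ℝ (⊤ : ℕ∞) (h95_g K) := by
  rw [contDiff_iff_contDiffAt]
  intro u
  by_cases hu : u < 1 / 2
  · have : h95_g K =ᶠ[nhds u] fun _ => 0 := by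
      filter_upwards [Iio_mem_nhds hu] with v hv
      simp [h95_g, V_eq_zero_left (le_of_lt hv)]
    exact contDiffAt_const.congr_of_eventuallyEq this
  · have hu0 : u ≠ 0 := by
      intro h
      rw [h] at hu
      norm_num at hu
    unfold h95_g
    exact (Complex.ofRealCLM.contDiff.contDiffAt).comp u
      (((Real.contDiff_exp.contDiffAt).mul (V_contDiff.contDiffAt)).div
        (contDiffAt_id.pow K) (pow_ne_zero _ hu0))

lemma h95_g_supp (K : ℕ) : HasCompactSupport (h95_g K) := by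
  refine V_hasCompactSupport.mono ?_
  intro u hu
  rw [Function.mem_support] at hu ⊢
  intro h
  apply hu
  simp [h95_g, h]

/-- The Fourier representation of `V`. -/
lemma h95_rep (K : ℕ) : ∃ φ : SchwartzMap ℝ ℂ, ∀ u : ℝ,
    (V u : ℂ) = Complex.exp (-(u : ℂ)) * (u : ℂ) ^ K *
      ∫ ξ : ℝ, φ ξ * Complex.exp (2 * π * Complex.I * ξ * u) := by
  set f : SchwartzMap ℝ ℂ := (h95_g_supp K).toSchwartzMap (h95_g_contDiff K) with hf
  refine ⟨𝓕 f, fun u => ?_⟩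
  have h1 : (𝓕⁻ (𝓕 f)) u = f u := by rw [FourierTransform.fourierInv_fourier_eq]
  rw [SchwartzMap.fourierInv_coe, Real.fourierInv_eq'] at h1
  have h2 : ∫ ξ : ℝ, (𝓕 f) ξ * Complex.exp (2 * π * Complex.I * ξ * u) = f u := by
    rw [← h1]
    refine integral_congr_ae (Filter.Eventually.of_forall fun ξ => ?_)
    simp only [smul_eq_mul]
    rw [mul_comm]
    congr 2
    simp only [RCLike.inner_apply, conj_trivial]
    push_cast
    ring
  rw [h2]
  have h3 : f u = h95_g K u := rfl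
  rw [h3, h95_g]
  by_cases hu : u = 0
  · subst hu
    have : V 0 = 0 := V_eq_zero_left (by norm_num)
    simp [this]
  · have hu' : (u : ℂ) ≠ 0 := by exact_mod_cast hu
    push_cast
    rw [Complex.exp_neg]
    have := Complex.exp_ne_zero (u : ℂ)
    field_simp

/-- The `n`th term. -/
noncomputable def h95_F {q : ℕ} (χ : DirichletCharacter ℂ q) (φ : SchwartzMap ℝ ℂ) (K : ℕ)
    (L a : ℝ) (n : ℕ) (ξ : ℝ) : ℂ :=
  ((vonMangoldt n : ℂ) * χ n / n) *
    (Complex.exp (-(((Real.log n - a) / L : ℝ) : ℂ)) * (((Real.log n - a) / L : ℝ) : ℂ) ^ K *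
      (φ ξ * Complex.exp (2 * π * Complex.I * ξ * ((Real.log n - a) / L : ℝ))))

lemma h95_norm_exp (ξ u : ℝ) : ‖Complex.exp (2 * π * Complex.I * ξ * u)‖ = 1 := by
  have : (2 * π * Complex.I * ξ * u : ℂ) = ((2 * π * ξ * u : ℝ) : ℂ) * Complex.I := by
    push_cast; ring
  rw [this, Complex.norm_exp_ofReal_mul_I]

lemma h95_int_aux (φ : SchwartzMap ℝ ℂ) (u : ℝ) :
    Integrable (fun ξ : ℝ => φ ξ * Complex.exp (2 * π * Complex.I * ξ * u)) := by
  refine (φ.integrable (μ := volume)).norm.mono' ?_ ?_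
  · refine Continuous.aestronglyMeasurable ?_
    have := φ.continuous
    fun_prop
  · refine Filter.Eventually.of_forall fun ξ => ?_
    rw [norm_mul, h95_norm_exp, mul_one]

lemma h95_F_integrable {q : ℕ} (χ : DirichletCharacter ℂ q) (φ : SchwartzMap ℝ ℂ) (K : ℕ)
    (L a : ℝ) (n : ℕ) : Integrable (h95_F χ φ K L a n) := by
  unfold h95_F
  exact ((h95_int_aux φ _).const_mul _).const_mul _

/-- The sum over `n` of the terms is `TT`. -/
lemma h95_TT_hasSum {q : ℕ} (χ : DirichletCharacter ℂ q) (φ : SchwartzMap ℝ ℂ) (K : ℕ)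
    (hφ : ∀ u : ℝ, (V u : ℂ) = Complex.exp (-(u : ℂ)) * (u : ℂ) ^ K *
      ∫ ξ : ℝ, φ ξ * Complex.exp (2 * π * Complex.I * ξ * u))
    {L : ℝ} (hL : 0 < L) (a : ℝ) :
    ∑' n : ℕ, ∫ ξ : ℝ, h95_F χ φ K L a n ξ = TT χ L a := by
  have h1 : ∀ n : ℕ, ∫ ξ : ℝ, h95_F χ φ K L a n ξ = (vonMangoldt n : ℂ) * χ n * (wt L a n : ℂ) := by
    intro n
    unfold h95_F wt
    rw [integral_const_mul, integral_const_mul, ← hφ]
    push_cast
    ring
  simp_rw [h1]
  unfold TT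
  rw [tsum_eq_sum]
  intro n hn
  rw [Finset.mem_Ioc, not_and_or] at hn
  rcases hn with hn | hn
  · have : n = 0 := by omega
    simp [this]
  · have h2 : Real.exp (L + a) < n := by
      unfold NN at hn
      exact Nat.lt_of_floor_lt (by omega)
    have hn0 : (0 : ℝ) < n := lt_trans (Real.exp_pos _) h2
    have h3 : L + a < Real.log n := by
      rw [Real.lt_log_iff_exp_lt hn0]; exact h2
    have h4 : 1 ≤ (Real.log n - a) / L := by
      rw [le_div_iff₀ hL]; linarith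
    simp [wt, V_eq_zero_right h4]

/-- The terms in terms of the Dirichlet series. -/
lemma h95_F_eq {q : ℕ} (χ : DirichletCharacter ℂ q) (φ : SchwartzMap ℝ ℂ) (K : ℕ)
    {L : ℝ} (hL : 0 < L) (a : ℝ) (n : ℕ) (ξ : ℝ) :
    h95_F χ φ K L a n ξ = (φ ξ * Complex.exp ((1 - 2 * π * Complex.I * ξ) * a / L) / (L : ℂ) ^ K) *
      ∑ j ∈ range (K + 1), ((K.choose j : ℂ) * (-(a : ℂ)) ^ (K - j)) *
        LSeries.term (fun n : ℕ => (vonMangoldt n : ℂ) * χ n * (Real.log n : ℂ) ^ j)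
          (1 + 1 / (L : ℂ) + (-(2 * π * ξ / L) : ℝ) * Complex.I) n := by
  have hL' : (L : ℂ) ≠ 0 := by exact_mod_cast hL.ne'
  by_cases hn : n = 0
  · subst hn
    simp [h95_F]
  · have hn' : (n : ℂ) ≠ 0 := by exact_mod_cast hn
    have hlog : Complex.log (n : ℂ) = (Real.log n : ℂ) := by
      rw [← Complex.natCast_log]
    have hpow : (n : ℂ) ^ (1 + 1 / (L : ℂ) + (-(2 * π * ξ / L) : ℝ) * Complex.I) =
        n * Complex.exp ((Real.log n : ℂ) / L - 2 * π * Complex.I * ξ * Real.log n / L) := by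
      rw [Complex.cpow_def_of_ne_zero hn', hlog]
      have : (Real.log n : ℂ) * (1 + 1 / (L : ℂ) + (-(2 * π * ξ / L) : ℝ) * Complex.I) =
          (Real.log n : ℂ) + ((Real.log n : ℂ) / L - 2 * π * Complex.I * ξ * Real.log n / L) := by
        push_cast; field_simp; ring
      rw [this, Complex.exp_add, ← hlog, Complex.exp_log hn']
    have hterm : ∀ j, LSeries.term (fun n : ℕ => (vonMangoldt n : ℂ) * χ n * (Real.log n : ℂ) ^ j)
          (1 + 1 / (L : ℂ) + (-(2 * π * ξ / L) : ℝ) * Complex.I) n =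
        ((vonMangoldt n : ℂ) * χ n / n) *
          Complex.exp (-((Real.log n : ℂ) / L - 2 * π * Complex.I * ξ * Real.log n / L)) *
            (Real.log n : ℂ) ^ j := by
      intro j
      rw [LSeries.term_of_ne_zero hn, hpow, Complex.exp_neg]
      have := Complex.exp_ne_zero ((Real.log n : ℂ) / L - 2 * π * Complex.I * ξ * Real.log n / L)
      field_simp
    simp_rw [hterm]
    have hbin : (((Real.log n - a) / L : ℝ) : ℂ) ^ K =
        (∑ j ∈ range (K + 1), (K.choose j : ℂ) * (-(a : ℂ)) ^ (K - j) * (Real.log n : ℂ) ^ j) /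
          (L : ℂ) ^ K := by
      push_cast
      rw [div_pow, sub_eq_add_neg, add_pow]
      congr 1
      refine Finset.sum_congr rfl fun j _ => ?_
      ring
    unfold h95_F
    rw [hbin]
    have hexp : Complex.exp (-(((Real.log n - a) / L : ℝ) : ℂ)) *
        Complex.exp (2 * π * Complex.I * ξ * ((Real.log n - a) / L : ℝ)) =
        Complex.exp ((1 - 2 * π * Complex.I * ξ) * a / L) *
          Complex.exp (-((Real.log n : ℂ) / L - 2 * π * Complex.I * ξ * Real.log n / L)) := by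
      rw [← Complex.exp_add, ← Complex.exp_add]
      congr 1
      push_cast
      field_simp
      ring
    have hsum : (∑ j ∈ range (K + 1), ((K.choose j : ℂ) * (-(a : ℂ)) ^ (K - j)) *
        (((vonMangoldt n : ℂ) * χ n / n) *
          Complex.exp (-((Real.log n : ℂ) / L - 2 * π * Complex.I * ξ * Real.log n / L)) *
            (Real.log n : ℂ) ^ j)) = ((vonMangoldt n : ℂ) * χ n / n) *
          Complex.exp (-((Real.log n : ℂ) / L - 2 * π * Complex.I * ξ * Real.log n / L)) *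
          ∑ j ∈ range (K + 1), (K.choose j : ℂ) * (-(a : ℂ)) ^ (K - j) * (Real.log n : ℂ) ^ j := by
      rw [Finset.mul_sum]
      refine Finset.sum_congr rfl fun j _ => ?_
      ring
    rw [hsum]
    calc _ = ((vonMangoldt n : ℂ) * χ n / n) *
          ((∑ j ∈ range (K + 1), (K.choose j : ℂ) * (-(a : ℂ)) ^ (K - j) * (Real.log n : ℂ) ^ j) /
          (L : ℂ) ^ K) * φ ξ * (Complex.exp (-(((Real.log n - a) / L : ℝ) : ℂ)) *
        Complex.exp (2 * π * Complex.I * ξ * ((Real.log n - a) / L : ℝ))) := by ring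
      _ = _ := by rw [hexp]; ring

lemma h95_re (L t : ℝ) : (1 + 1 / (L : ℂ) + (t : ℂ) * Complex.I).re = 1 + 1 / L := by
  simp [← Complex.ofReal_one, ← Complex.ofReal_div]

/-- The sum of the terms for fixed `ξ`. -/
lemma h95_tsum_F {q : ℕ} (χ : DirichletCharacter ℂ q) (φ : SchwartzMap ℝ ℂ) (K : ℕ)
    {L : ℝ} (hL : 0 < L) (a : ℝ) (ξ : ℝ) :
    ∑' n : ℕ, h95_F χ φ K L a n ξ =
      (φ ξ * Complex.exp ((1 - 2 * π * Complex.I * ξ) * a / L) / (L : ℂ) ^ K) *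
      ∑ j ∈ range (K + 1), ((K.choose j : ℂ) * (-(a : ℂ)) ^ (K - j)) *
        GG χ j (1 + 1 / (L : ℂ) + (-(2 * π * ξ / L) : ℝ) * Complex.I) := by
  simp_rw [h95_F_eq χ φ K hL a]
  rw [tsum_mul_left]
  congr 1
  have hs : 1 < (1 + 1 / (L : ℂ) + (-(2 * π * ξ / L) : ℝ) * Complex.I).re := by
    rw [h95_re]
    have : 0 < 1 / L := by positivity
    linarith
  rw [Summable.tsum_finsetSum]
  · refine Finset.sum_congr rfl fun j _ => ?_
    rw [tsum_mul_left]
    rfl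
  · intro j _
    exact (h95_summable_GG χ j hs).mul_left _


lemma h95_norm_expa (L a ξ : ℝ) :
    ‖Complex.exp ((1 - 2 * π * Complex.I * ξ) * a / L)‖ = Real.exp (a / L) := by
  rw [Complex.norm_exp]
  congr 1
  have : ((1 - 2 * π * Complex.I * ξ) * a / L : ℂ) =
      ((a / L : ℝ) : ℂ) + ((-(2 * π * ξ * a / L) : ℝ) : ℂ) * Complex.I := by
    push_cast; ring
  rw [this]
  simp

lemma h95_F_le {q : ℕ} (χ : DirichletCharacter ℂ q) (φ : SchwartzMap ℝ ℂ) (K : ℕ)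
    {L : ℝ} (hL : 0 < L) (a : ℝ) (n : ℕ) (ξ : ℝ) :
    ‖h95_F χ φ K L a n ξ‖ ≤ ‖φ ξ‖ * ((Real.exp (a / L) / L ^ K) *
      ∑ j ∈ range (K + 1), ((K.choose j : ℝ) * |a| ^ (K - j)) *
        ‖LSeries.term (fun n : ℕ => (vonMangoldt n : ℂ) * χ n * (Real.log n : ℂ) ^ j)
          (1 + 1 / (L : ℂ) + ((0 : ℝ) : ℂ) * Complex.I) n‖) := by
  rw [h95_F_eq χ φ K hL a n ξ, norm_mul, norm_div, norm_mul, h95_norm_expa, norm_pow,
    Complex.norm_real, Real.norm_of_nonneg hL.le]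
  have h1 : ∀ j, ‖LSeries.term (fun n : ℕ => (vonMangoldt n : ℂ) * χ n * (Real.log n : ℂ) ^ j)
          (1 + 1 / (L : ℂ) + (-(2 * π * ξ / L) : ℝ) * Complex.I) n‖ =
        ‖LSeries.term (fun n : ℕ => (vonMangoldt n : ℂ) * χ n * (Real.log n : ℂ) ^ j)
          (1 + 1 / (L : ℂ) + ((0 : ℝ) : ℂ) * Complex.I) n‖ := by
    intro j
    rw [LSeries.norm_term_eq, LSeries.norm_term_eq, h95_re, h95_re]
  have h2 : ‖∑ j ∈ range (K + 1), ((K.choose j : ℂ) * (-(a : ℂ)) ^ (K - j)) *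
        LSeries.term (fun n : ℕ => (vonMangoldt n : ℂ) * χ n * (Real.log n : ℂ) ^ j)
          (1 + 1 / (L : ℂ) + (-(2 * π * ξ / L) : ℝ) * Complex.I) n‖ ≤
      ∑ j ∈ range (K + 1), ((K.choose j : ℝ) * |a| ^ (K - j)) *
        ‖LSeries.term (fun n : ℕ => (vonMangoldt n : ℂ) * χ n * (Real.log n : ℂ) ^ j)
          (1 + 1 / (L : ℂ) + ((0 : ℝ) : ℂ) * Complex.I) n‖ := by
    refine (norm_sum_le _ _).trans (Finset.sum_le_sum fun j _ => ?_)
    rw [norm_mul, norm_mul, norm_pow, norm_neg, Complex.norm_real, Real.norm_eq_abs,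
      Complex.norm_natCast, h1]
  calc ‖φ ξ‖ * Real.exp (a / L) / L ^ K * _ ≤ ‖φ ξ‖ * Real.exp (a / L) / L ^ K * _ :=
        mul_le_mul_of_nonneg_left h2 (by positivity)
    _ = _ := by ring

/-- Exchange of sum and integral. -/
lemma h95_TT_eq {q : ℕ} (χ : DirichletCharacter ℂ q) (φ : SchwartzMap ℝ ℂ) (K : ℕ)
    (hφ : ∀ u : ℝ, (V u : ℂ) = Complex.exp (-(u : ℂ)) * (u : ℂ) ^ K *
      ∫ ξ : ℝ, φ ξ * Complex.exp (2 * π * Complex.I * ξ * u))
    {L : ℝ} (hL : 0 < L) (a : ℝ) :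
    TT χ L a = ∫ ξ : ℝ, (φ ξ * Complex.exp ((1 - 2 * π * Complex.I * ξ) * a / L) / (L : ℂ) ^ K) *
      ∑ j ∈ range (K + 1), ((K.choose j : ℂ) * (-(a : ℂ)) ^ (K - j)) *
        GG χ j (1 + 1 / (L : ℂ) + (-(2 * π * ξ / L) : ℝ) * Complex.I) := by
  simp_rw [← h95_tsum_F χ φ K hL a]
  rw [← h95_TT_hasSum χ φ K hφ hL a]
  refine integral_tsum_of_summable_integral_norm (fun n => h95_F_integrable χ φ K L a n) ?_
  have hs : ∀ j : ℕ, Summable fun n => ‖LSeries.term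
      (fun n : ℕ => (vonMangoldt n : ℂ) * χ n * (Real.log n : ℂ) ^ j)
          (1 + 1 / (L : ℂ) + ((0 : ℝ) : ℂ) * Complex.I) n‖ := by
    intro j
    refine (h95_summable_GG χ j ?_).norm
    rw [h95_re]
    have : 0 < 1 / L := by positivity
    linarith
  refine Summable.of_nonneg_of_le (fun n => integral_nonneg fun ξ => norm_nonneg _)
    (f := fun n => (∫ ξ : ℝ, ‖φ ξ‖) * ((Real.exp (a / L) / L ^ K) *
      ∑ j ∈ range (K + 1), ((K.choose j : ℝ) * |a| ^ (K - j)) *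
        ‖LSeries.term (fun n : ℕ => (vonMangoldt n : ℂ) * χ n * (Real.log n : ℂ) ^ j)
          (1 + 1 / (L : ℂ) + ((0 : ℝ) : ℂ) * Complex.I) n‖)) (fun n => ?_) ?_
  · rw [← integral_mul_const]
    refine integral_mono (h95_F_integrable χ φ K L a n).norm
      ((φ.integrable (μ := volume)).norm.mul_const _) fun ξ => ?_
    exact h95_F_le χ φ K hL a n ξ
  · refine Summable.mul_left _ (Summable.mul_left _ ?_)
    exact summable_sum fun j _ => (hs j).mul_left _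

/-- AN7: Fourier representation of `TT`. -/
theorem TT_fourier (K M A : ℕ) (hA : 0 < A) : ∃ C : ℝ, 0 < C ∧ ∀ L : ℝ, 2 ≤ L → ∀ q : ℕ, 0 < q →
    ∀ χ : DirichletCharacter ℂ q, ∀ t₀ B : ℝ, 0 < t₀ → 0 ≤ B →
    (∀ j ≤ K, ∀ t : ℝ, |t| ≤ t₀ → ‖GG χ j (1 + 1 / (L : ℂ) + t * Complex.I)‖ ≤ B) →
    ‖TT χ L (Real.log A)‖ ≤ C * (B / L ^ K + L ^ 2 * (1 / (t₀ * L)) ^ M) := by
  obtain ⟨φ, hφ⟩ := h95_rep K
  set a : ℝ := Real.log A with ha
  have ha0 : 0 ≤ a := Real.log_natCast_nonneg A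
  set C₁ : ℝ := ∑ j ∈ range (K + 1), (((j + 1).factorial : ℝ) * 2 ^ (j + 1) * 3) with hC₁
  have hC₁0 : 0 ≤ C₁ := Finset.sum_nonneg fun j _ => by positivity
  set I₀ : ℝ := ∫ ξ : ℝ, ‖φ ξ‖ with hI₀
  set I₁ : ℝ := ∫ ξ : ℝ, ‖ξ‖ ^ M * ‖φ ξ‖ with hI₁
  have hI₀0 : 0 ≤ I₀ := integral_nonneg fun ξ => norm_nonneg _
  have hI₁0 : 0 ≤ I₁ := integral_nonneg fun ξ => by positivity
  refine ⟨Real.exp a * (1 + a) ^ K * (I₀ + C₁ * (2 * π) ^ M * I₁) + 1, by positivity, ?_⟩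
  intro L hL q hq χ t₀ B ht₀ hB hGG
  have hL0 : 0 < L := by linarith
  rw [h95_TT_eq χ φ K hφ hL0 a]
  -- bound for `GG`
  have hG : ∀ j ∈ range (K + 1), ∀ ξ : ℝ,
      ‖GG χ j (1 + 1 / (L : ℂ) + (-(2 * π * ξ / L) : ℝ) * Complex.I)‖ ≤
        B + C₁ * L ^ (K + 2) * ((2 * π) ^ M * (1 / (t₀ * L)) ^ M * ‖ξ‖ ^ M) := by
    intro j hj ξ
    rw [Finset.mem_range] at hj
    by_cases ht : |(-(2 * π * ξ / L))| ≤ t₀
    · have h1 := hGG j (by omega) (-(2 * π * ξ / L)) ht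
      have h2 : 0 ≤ C₁ * L ^ (K + 2) * ((2 * π) ^ M * (1 / (t₀ * L)) ^ M * ‖ξ‖ ^ M) := by
        positivity
      linarith
    · push Not at ht
      have h1 := h95_GG_crude χ j (L := L) (by linarith)
        (s := 1 + 1 / (L : ℂ) + (-(2 * π * ξ / L) : ℝ) * Complex.I) (h95_re _ _)
      have h2 : (((j + 1).factorial : ℝ) * 2 ^ (j + 1) * 3) ≤ C₁ :=
        Finset.single_le_sum (f := fun j : ℕ => (((j + 1).factorial : ℝ) * 2 ^ (j + 1) * 3))
          (fun i _ => by positivity) (Finset.mem_range.2 hj)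
      have h3 : L ^ (j + 2) ≤ L ^ (K + 2) := pow_le_pow_right₀ (by linarith) (by omega)
      have h4 : 1 ≤ (2 * π) ^ M * (1 / (t₀ * L)) ^ M * ‖ξ‖ ^ M := by
        rw [← mul_pow, ← mul_pow]
        refine one_le_pow₀ ?_
        rw [abs_neg, abs_div, abs_mul, abs_mul, abs_of_pos hL0, abs_of_pos Real.pi_pos,
          lt_div_iff₀ hL0] at ht
        rw [Real.norm_eq_abs]
        have h5 : 0 < t₀ * L := by positivity
        have h6 : 2 * π * (1 / (t₀ * L)) * |ξ| = (2 * π * |ξ|) / (t₀ * L) := by ring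
        rw [h6, le_div_iff₀ h5]
        have h7 : |(2 : ℝ)| = 2 := abs_of_pos (by norm_num)
        rw [h7] at ht
        linarith
      calc _ ≤ (((j + 1).factorial : ℝ) * 2 ^ (j + 1) * 3) * L ^ (j + 2) := h1
        _ ≤ C₁ * L ^ (K + 2) := by gcongr
        _ ≤ C₁ * L ^ (K + 2) * ((2 * π) ^ M * (1 / (t₀ * L)) ^ M * ‖ξ‖ ^ M) :=
            le_mul_of_one_le_right (by positivity) h4
        _ ≤ _ := le_add_of_nonneg_left hB
  have hbin : ∑ j ∈ range (K + 1), ((K.choose j : ℝ) * a ^ (K - j)) = (1 + a) ^ K := by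
    rw [add_pow]
    refine Finset.sum_congr rfl fun j _ => ?_
    ring
  have hexp : Real.exp (a / L) ≤ Real.exp a := by
    apply Real.exp_le_exp.2
    exact div_le_self ha0 (by linarith)
  have hpt : ∀ ξ : ℝ, ‖(φ ξ * Complex.exp ((1 - 2 * π * Complex.I * ξ) * a / L) / (L : ℂ) ^ K) *
      ∑ j ∈ range (K + 1), ((K.choose j : ℂ) * (-(a : ℂ)) ^ (K - j)) *
        GG χ j (1 + 1 / (L : ℂ) + (-(2 * π * ξ / L) : ℝ) * Complex.I)‖ ≤
      (Real.exp a / L ^ K * (1 + a) ^ K * B) * ‖φ ξ‖ +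
        (Real.exp a / L ^ K * (1 + a) ^ K * (C₁ * L ^ (K + 2) * ((2 * π) ^ M * (1 / (t₀ * L)) ^ M)))
          * (‖ξ‖ ^ M * ‖φ ξ‖) := by
    intro ξ
    rw [norm_mul, norm_div, norm_mul, h95_norm_expa, norm_pow,
      Complex.norm_real, Real.norm_of_nonneg hL0.le]
    have h1 : ‖∑ j ∈ range (K + 1), ((K.choose j : ℂ) * (-(a : ℂ)) ^ (K - j)) *
        GG χ j (1 + 1 / (L : ℂ) + (-(2 * π * ξ / L) : ℝ) * Complex.I)‖ ≤
        (1 + a) ^ K * (B + C₁ * L ^ (K + 2) * ((2 * π) ^ M * (1 / (t₀ * L)) ^ M * ‖ξ‖ ^ M)) := by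
      rw [← hbin, Finset.sum_mul]
      refine (norm_sum_le _ _).trans (Finset.sum_le_sum fun j hj => ?_)
      rw [norm_mul, norm_mul, norm_pow, norm_neg, Complex.norm_real, Real.norm_of_nonneg ha0,
        Complex.norm_natCast]
      exact mul_le_mul_of_nonneg_left (hG j hj ξ) (by positivity)
    calc ‖φ ξ‖ * Real.exp (a / L) / L ^ K * _
        ≤ ‖φ ξ‖ * Real.exp a / L ^ K * ((1 + a) ^ K *
          (B + C₁ * L ^ (K + 2) * ((2 * π) ^ M * (1 / (t₀ * L)) ^ M * ‖ξ‖ ^ M))) := by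
          refine mul_le_mul ?_ h1 (norm_nonneg _) (by positivity)
          gcongr
      _ = _ := by ring
  have hint₀ : Integrable (fun ξ : ℝ => ‖φ ξ‖) := (φ.integrable (μ := volume)).norm
  have hint₁ : Integrable (fun ξ : ℝ => ‖ξ‖ ^ M * ‖φ ξ‖) := φ.integrable_pow_mul volume M
  refine (norm_integral_le_of_norm_le ((hint₀.const_mul _).add (hint₁.const_mul _))
    (Filter.Eventually.of_forall hpt)).trans ?_
  simp only [Pi.add_apply]
  rw [integral_add (hint₀.const_mul _) (hint₁.const_mul _), integral_const_mul, integral_const_mul,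
    ← hI₀, ← hI₁]
  have h1 : Real.exp a / L ^ K * (1 + a) ^ K * (C₁ * L ^ (K + 2) * ((2 * π) ^ M *
      (1 / (t₀ * L)) ^ M)) * I₁ =
      Real.exp a * (1 + a) ^ K * (C₁ * (2 * π) ^ M * I₁) * (L ^ 2 * (1 / (t₀ * L)) ^ M) := by
    rw [pow_add]
    field_simp
  have h2 : Real.exp a / L ^ K * (1 + a) ^ K * B * I₀ =
      Real.exp a * (1 + a) ^ K * I₀ * (B / L ^ K) := by
    ring
  rw [h1, h2]
  set X := B / L ^ K with hX
  set Y := L ^ 2 * (1 / (t₀ * L)) ^ M with hY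
  have hX0 : 0 ≤ X := by positivity
  have hY0 : 0 ≤ Y := by positivity
  have h3 : 0 ≤ Real.exp a * (1 + a) ^ K * I₀ := by positivity
  have h4 : 0 ≤ Real.exp a * (1 + a) ^ K * (C₁ * (2 * π) ^ M * I₁) := by positivity
  nlinarith [mul_nonneg h3 hY0, mul_nonneg h4 hX0]

end Pool.Agent.helper39.MT
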